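import Pool.Agent.Lib.MP_56f651_co.H83Iso4

namespace Pool.Agent.Variants.MP_56f651_co.Isolated

/-- A cyclic Hadamard difference set whose symmetric difference with a set equivalent to the
quadratic residue set, a sextic residue set `C₀ ∪ C₁ ∪ C₃` or the twin prime set has at most
`√v / 12` elements is equal to that set. -/
theorem result :
    ∀ (v : ℕ) (D D₀ : Finset (ZMod v)),
      v % 4 = 3 →
      D.card = (v - 1) / 2 →
      (∀ d : ZMod v, d ≠ 0 →
        ((D ×ˢ D).filter (fun q => q.1 - q.2 = d)).card = (v - 3) / 4) →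
      ∀ a b : ZMod v, IsUnit a →
      ((v.Prime ∧ ∀ x : ZMod v, x ∈ D₀ ↔ (a * x + b ≠ 0 ∧ IsSquare (a * x + b))) ∨
       (v.Prime ∧ v % 6 = 1 ∧ ∃ g : ZMod v, orderOf g = v - 1 ∧
           ∀ x : ZMod v, x ∈ D₀ ↔
             ∃ k : ℕ, (k % 6 = 0 ∨ k % 6 = 1 ∨ k % 6 = 3) ∧ g ^ k = a * x + b) ∨
       (∃ p : ℕ, p.Prime ∧ (p + 2).Prime ∧ v = p * (p + 2) ∧
         ∀ x : ZMod v, x ∈ D₀ ↔
           (jacobiSym ((a * x + b).val : ℤ) p * jacobiSym ((a * x + b).val : ℤ) (p + 2) = 1 ∨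
            (a * x + b).val % (p + 2) = 0))) →
      144 * (symmDiff D D₀).card ^ 2 ≤ v →
      D = D₀ :=
  Pool.Agent.Lib.MP_56f651_co.isolated

end Pool.Agent.Variants.MP_56f651_co.Isolated
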